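import Pool.Agent.Lib.MP_acd137_lc.TB.Final
import Pool.Agent.Lib.MP_acd137_lc.TB.Changes

/-!
# Numbers which are lacunary in one base, seen in another base
-/

namespace Pool.Agent.Results.MP_acd137_lc.LacunaryTwoBases

open Filter MPacdTB

/-- **Theorem.**  Let `b, c ≥ 2` be integers such that some prime `p` divides `b` and does not divide `c`,
and let `m 0 < m 1 < ...` be integers with `m (i + 1) ≥ lam * m i` from some `i` on, where `lam > 1`.  Let the
real `x` be such that (A) `g * x = u + ∑ e i / b ^ m i` with an integer `g ≥ 1`, an integer `u` and a bounded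
sequence `e` of nonzero integers, or (B) the digits of `x` in base `b` change exactly at the positions `m i`.
Then, for every `C`, the block complexity of the base `c` expansion of `x` is larger than `C n` for infinitely
many `n`, and for all large `n` if moreover `m (i + 1) ≤ Lam * m i` from some `i` on, for some real `Lam`;
so the base `c` expansion of `x` is not automatic, in any base `k ≥ 2`. -/
theorem result (b c p : ℕ) (hb : 2 ≤ b) (hc : 2 ≤ c) (hp : p.Prime) (hpb : p ∣ b) (hpc : ¬ p ∣ c)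
    (m : ℕ → ℕ) (hm : StrictMono m) (lam : ℝ) (hlam : 1 < lam)
    (hlac : ∀ᶠ i in atTop, lam * m i ≤ m (i + 1)) (x : ℝ)
    (hx : (∃ (g : ℕ) (u : ℤ) (e : ℕ → ℤ) (D : ℕ), 0 < g ∧ (∀ i, e i ≠ 0 ∧ |e i| ≤ D) ∧
        (g : ℝ) * x = u + ∑' i, (e i : ℝ) / (b : ℝ) ^ (m i)) ∨
      (∀ k, dig b x k ≠ dig b x (k + 1) ↔ k + 1 ∈ Set.range m)) :
    (∀ C N : ℕ, ∃ n, N ≤ n ∧ C * n < cplx (dig c x) n) ∧
      (∀ k, 2 ≤ k → ¬ Automatic k (dig c x)) ∧
      ((∃ Lam : ℝ, ∀ᶠ i in atTop, (m (i + 1) : ℝ) ≤ Lam * m i) →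
        ∀ C : ℕ, ∀ᶠ n in atTop, C * n < cplx (dig c x) n) := by
  -- both cases give a lacunary series
  obtain ⟨m', e, D, g, u, L, hx', hm'⟩ : ∃ (m' : ℕ → ℕ) (e : ℕ → ℤ) (D g : ℕ) (u : ℤ),
      Lac b e m' D lam ∧ (g : ℝ) * x = u + theta b e m' ∧
      ∀ Lam : ℝ, (∀ᶠ i in atTop, (m (i + 1) : ℝ) ≤ Lam * m i) →
        ∀ᶠ i in atTop, (m' (i + 1) : ℝ) ≤ Lam * m' i := by
    rcases hx with ⟨g, u, e, D, _, he, hx⟩ | h
    · exact ⟨m, e, D, g, u, ⟨hb, hm, hlam, hlac, fun i => (he i).1, fun i => (he i).2⟩, hx,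
        fun _ h => h⟩
    · have hm1 : StrictMono fun i => m (i + 1) := fun i j hij => hm (Nat.succ_lt_succ hij)
      have hlac1 : ∀ᶠ i in atTop, lam * m (i + 1) ≤ m (i + 1 + 1) :=
        (tendsto_add_atTop_nat 1).eventually hlac
      by_cases h0 : 0 < m 0
      · obtain ⟨e, h1, h2, h3⟩ := of_changes b hb x m hm h0 h
        exact ⟨m, e, b, b - 1, _, ⟨hb, hm, hlam, hlac, h1, h2⟩, h3, fun _ h => h⟩
      · have h4 : ∀ k, dig b x k ≠ dig b x (k + 1) ↔ k + 1 ∈ Set.range fun i => m (i + 1) := by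
          intro k
          rw [h k]
          constructor
          · rintro ⟨i, hi⟩
            rcases i with _ | i
            · omega
            · exact ⟨i, hi⟩
          · rintro ⟨i, hi⟩
            exact ⟨i + 1, hi⟩
        obtain ⟨e, h1, h2, h3⟩ := of_changes b hb x (fun i => m (i + 1)) hm1
          (lt_of_le_of_lt (Nat.zero_le _) (hm (Nat.zero_lt_one))) h4
        exact ⟨fun i => m (i + 1), e, b, b - 1, _, ⟨hb, hm1, hlam, hlac1, h1, h2⟩, h3,
          fun Lam h => (tendsto_add_atTop_nat 1).eventually h⟩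
  have h1 : ∀ C N : ℕ, ∃ n, N ≤ n ∧ C * n < cplx (dig c x) n :=
    part1 hc L p hp hpb hpc x g u hx'
  refine ⟨h1, ?_, ?_⟩
  · intro k hk hA
    obtain ⟨C, hC⟩ := automatic_cplx k hk (dig c x) c (dig_range c (by omega) x) hA
    obtain ⟨n, hn, hn2⟩ := h1 C 1
    exact absurd (hC n hn) (not_le.2 hn2)
  · rintro ⟨Lam, hLam⟩
    exact part3a hc L p hp hpb hpc x g u hx' Lam (hm' Lam hLam)

end Pool.Agent.Results.MP_acd137_lc.LacunaryTwoBases
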